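import Mathlib

set_option autoImplicit false

/-!
# MP_840660_pr, Q1: maximisers of the local-time variational problem are not unique up to lattice
isometries

For every `d ≥ 2` and `γ > 0`, with `β = γ / (2 d)`, there is a continuum of pairwise inequivalent
maximisers.
-/

namespace Pool.Agent.Results.MP_840660_pr.InequivalentMaximisers

open Filter Topology Finset

variable {d : ℕ}

/-- `x` and `y` are nearest neighbours: the Euclidean norm of `x - y` is one. -/
def Nbr (x y : Fin d → ℤ) : Prop := ∑ i, (x i - y i) ^ 2 = 1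

instance (x y : Fin d → ℤ) : Decidable (Nbr x y) := by unfold Nbr; infer_instance

/-- The matrix `F`: `-β` on the diagonal, `γ / (2d)` at nearest neighbours, `0` elsewhere. -/
noncomputable def F (d : ℕ) (β γ : ℝ) (x y : Fin d → ℤ) : ℝ :=
  if x = y then -β else if Nbr x y then γ / (2 * d) else 0

/-- The quadratic form `⟨f, F f⟩ = ∑_{x,y} f(x) F(x,y) f(y)`. -/
noncomputable def energy (d : ℕ) (β γ : ℝ) (f : (Fin d → ℤ) → ℝ) : ℝ :=
  ∑' x, ∑' y, f x * F d β γ x y * f y

/-- `w 0, …, w n` is an `n`-step nearest neighbour path. -/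
def IsPath (n : ℕ) (w : ℕ → (Fin d → ℤ)) : Prop := ∀ i < n, Nbr (w (i + 1)) (w i)

/-- Endpoint-corrected local time of the path `w 0, …, w n`. -/
noncomputable def localTime (n : ℕ) (w : ℕ → (Fin d → ℤ)) (x : Fin d → ℤ) : ℝ :=
  (((Finset.range (n + 1)).filter fun i => w i = x).card : ℝ) - (if w 0 = x then 1 / 2 else 0) -
    (if w n = x then 1 / 2 else 0)

/-- The set of probability measures on `ℤ^d` that are pointwise limits of normalised local times of
`n_k`-step paths with `n_k → ∞`. -/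
def Limits (d : ℕ) : Set ((Fin d → ℤ) → ℝ) :=
  {f | (∀ x, 0 ≤ f x) ∧ HasSum f 1 ∧ ∃ (n : ℕ → ℕ) (w : ℕ → ℕ → (Fin d → ℤ)),
    Tendsto n atTop atTop ∧ (∀ k, IsPath (n k) (w k)) ∧
    ∀ x, Tendsto (fun k => 1 / (n k : ℝ) * localTime (n k) (w k) x) atTop (𝓝 (f x))}

/-- `f` maximises `⟨f, F f⟩` over the set `Limits d`. -/
def IsMaximiser (d : ℕ) (β γ : ℝ) (f : (Fin d → ℤ) → ℝ) : Prop :=
  f ∈ Limits d ∧ ∀ g ∈ Limits d, energy d β γ g ≤ energy d β γ f

/-- Lattice isometries: a signed permutation of the coordinates followed by a translation. -/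
def IsLatticeIsometry (φ : (Fin d → ℤ) → (Fin d → ℤ)) : Prop :=
  ∃ (π : Equiv.Perm (Fin d)) (s : Fin d → ℤ) (z : Fin d → ℤ), (∀ i, s i = 1 ∨ s i = -1) ∧
    ∀ x i, φ x i = s i * x (π i) + z i

/-- Equivalence of functions on the lattice: `f' = f ∘ φ` for some lattice isometry `φ`. -/
def Equivalent (f f' : (Fin d → ℤ) → ℝ) : Prop :=
  ∃ φ : (Fin d → ℤ) → (Fin d → ℤ), IsLatticeIsometry φ ∧ f' = f ∘ φ

/-! ### A copositivity lemma -/

section Copositive

variable {ι : Type*} [DecidableEq ι]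

/-- total of the quadratic form over `s` -/
noncomputable def QQ (r : ι → ι → ℝ) (w : ι → ℝ) (s : Finset ι) : ℝ :=
  ∑ i ∈ s, ∑ j ∈ s, w i * w j * r i j

theorem QQ_clique (r : ι → ι → ℝ) (hd : ∀ i, r i i = 0)
    (h2 : ∀ i j k, r i j = 2 → r i k = 2 → j ≠ k → r j k = 0)
    (hv : ∀ i j, r i j = 0 ∨ r i j = 1 ∨ r i j = 2)
    (hsymm : ∀ i j, r i j = r j i)
    (w : ι → ℝ) (s : Finset ι)
    (hs : ∀ i ∈ s, ∀ j ∈ s, i ≠ j → r i j ≠ 0) :
    QQ r w s ≤ (∑ i ∈ s, w i) ^ 2 := by
  classical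
  have key : ∀ i ∈ s, ∀ j ∈ s, w i * w j * r i j ≤
      w i * w j - (if i = j then w i ^ 2 else 0) + (if r i j = 2 then w i ^ 2 / 2 else 0) +
        (if r i j = 2 then w j ^ 2 / 2 else 0) := by
    intro i hi j hj
    by_cases hij : i = j
    · subst hij
      rw [hd]; simp
      nlinarith
    · rcases hv i j with h | h | h
      · exact absurd h (hs i hi j hj hij)
      · rw [h, if_neg hij]; norm_num
      · rw [h, if_neg hij]; simp
        nlinarith [sq_nonneg (w i - w j)]
  have hcard : ∀ i ∈ s, ((s.filter fun j => r i j = 2).card : ℝ) ≤ 1 := by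
    intro i hi
    have : (s.filter fun j => r i j = 2).card ≤ 1 := by
      rw [Finset.card_le_one]
      intro a ha b hb
      rw [Finset.mem_filter] at ha hb
      by_contra hab
      exact hs a ha.1 b hb.1 hab (h2 i a b ha.2 hb.2 hab)
    exact_mod_cast this
  have e1 : ∑ i ∈ s, ∑ j ∈ s, (if r i j = 2 then w i ^ 2 / 2 else 0) ≤ ∑ i ∈ s, w i ^ 2 / 2 := by
    refine Finset.sum_le_sum fun i hi => ?_
    rw [← Finset.sum_filter, Finset.sum_const, nsmul_eq_mul]
    have := hcard i hi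
    nlinarith [sq_nonneg (w i)]
  have e2 : ∑ i ∈ s, ∑ j ∈ s, (if r i j = 2 then w j ^ 2 / 2 else 0) ≤ ∑ i ∈ s, w i ^ 2 / 2 := by
    rw [Finset.sum_comm]
    refine le_trans (le_of_eq ?_) e1
    refine Finset.sum_congr rfl fun i _ => Finset.sum_congr rfl fun j _ => ?_
    rw [hsymm j i]
  have e3 : ∑ i ∈ s, ∑ j ∈ s, (if i = j then w i ^ 2 else 0) = ∑ i ∈ s, w i ^ 2 := by
    refine Finset.sum_congr rfl fun i hi => ?_
    rw [Finset.sum_ite_eq s i]
    simp [hi]
  have e4 : ∑ i ∈ s, ∑ j ∈ s, w i * w j = (∑ i ∈ s, w i) ^ 2 := by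
    rw [sq, Finset.sum_mul_sum]
  calc QQ r w s ≤ ∑ i ∈ s, ∑ j ∈ s, (w i * w j - (if i = j then w i ^ 2 else 0) +
          (if r i j = 2 then w i ^ 2 / 2 else 0) + (if r i j = 2 then w j ^ 2 / 2 else 0)) :=
        Finset.sum_le_sum fun i hi => Finset.sum_le_sum fun j hj => key i hi j hj
    _ = (∑ i ∈ s, w i) ^ 2 - ∑ i ∈ s, w i ^ 2 +
        ∑ i ∈ s, ∑ j ∈ s, (if r i j = 2 then w i ^ 2 / 2 else 0) +
        ∑ i ∈ s, ∑ j ∈ s, (if r i j = 2 then w j ^ 2 / 2 else 0) := by
        rw [← e3, ← e4]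
        simp only [Finset.sum_add_distrib, Finset.sum_sub_distrib]
    _ ≤ (∑ i ∈ s, w i) ^ 2 := by
        have : ∑ i ∈ s, w i ^ 2 / 2 = (∑ i ∈ s, w i ^ 2) / 2 := by rw [Finset.sum_div]
        linarith

/-- moving the weight of `b` to `a` when `r a b = 0` and `a` has the larger field -/
theorem QQ_move (r : ι → ι → ℝ) (hd : ∀ i, r i i = 0) (hsymm : ∀ i j, r i j = r j i)
    (w : ι → ℝ) (hw : ∀ i, 0 ≤ w i) (s : Finset ι) (a b : ι) (ha : a ∈ s) (hb : b ∈ s)
    (hab : a ≠ b) (h0 : r a b = 0)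
    (hL : ∑ k ∈ s, w k * r b k ≤ ∑ k ∈ s, w k * r a k) :
    QQ r w s ≤ QQ r (Function.update w a (w a + w b)) (s.erase b) := by
  set u : ι → ℝ := Function.update w a (w a + w b) with hu
  have hba : r b a = 0 := by rw [hsymm]; exact h0
  -- the remaining set
  set t : Finset ι := (s.erase b).erase a with ht
  have hat : a ∈ s.erase b := Finset.mem_erase.2 ⟨hab, ha⟩
  have es : ∀ g : ι → ℝ, ∑ i ∈ s, g i = g a + g b + ∑ i ∈ t, g i := by
    intro g
    rw [← Finset.add_sum_erase s g hb, ← Finset.add_sum_erase (s.erase b) g hat]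
    ring
  have et : ∀ g : ι → ℝ, ∑ i ∈ s.erase b, g i = g a + ∑ i ∈ t, g i := by
    intro g
    rw [← Finset.add_sum_erase (s.erase b) g hat]
  have hut : ∀ i ∈ t, u i = w i := by
    intro i hi
    have : i ≠ a := (Finset.mem_erase.1 hi).1
    simp [hu, this]
  have hua : u a = w a + w b := by simp [hu]
  have hLa : ∑ k ∈ s, w k * r a k = ∑ k ∈ t, w k * r a k := by
    rw [es]; rw [hd, h0]; ring
  have hLb : ∑ k ∈ s, w k * r b k = ∑ k ∈ t, w k * r b k := by
    rw [es]; rw [hd, hba]; ring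
  rw [hLa, hLb] at hL
  have lhs : QQ r w s = 2 * w a * (∑ k ∈ t, w k * r a k) + 2 * w b * (∑ k ∈ t, w k * r b k) +
      ∑ i ∈ t, ∑ j ∈ t, w i * w j * r i j := by
    unfold QQ
    rw [es]
    rw [es, es]
    have : ∀ i ∈ t, ∑ j ∈ s, w i * w j * r i j = w i * w a * r a i + w i * w b * r b i +
        ∑ j ∈ t, w i * w j * r i j := by
      intro i _
      rw [es, hsymm i a, hsymm i b]
    rw [Finset.sum_congr rfl this, Finset.sum_add_distrib, Finset.sum_add_distrib]
    rw [hd, hd, h0, hba]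
    have e1 : ∑ i ∈ t, w a * w i * r a i = w a * ∑ k ∈ t, w k * r a k := by
      rw [Finset.mul_sum]; exact Finset.sum_congr rfl fun _ _ => by ring
    have e2 : ∑ i ∈ t, w b * w i * r b i = w b * ∑ k ∈ t, w k * r b k := by
      rw [Finset.mul_sum]; exact Finset.sum_congr rfl fun _ _ => by ring
    have e3 : ∑ i ∈ t, w i * w a * r a i = w a * ∑ k ∈ t, w k * r a k := by
      rw [Finset.mul_sum]; exact Finset.sum_congr rfl fun _ _ => by ring
    have e4 : ∑ i ∈ t, w i * w b * r b i = w b * ∑ k ∈ t, w k * r b k := by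
      rw [Finset.mul_sum]; exact Finset.sum_congr rfl fun _ _ => by ring
    rw [e1, e2, e3, e4]; ring
  have rhs : QQ r u (s.erase b) = 2 * (w a + w b) * (∑ k ∈ t, w k * r a k) +
      ∑ i ∈ t, ∑ j ∈ t, w i * w j * r i j := by
    unfold QQ
    rw [et]
    rw [et]
    have h1 : ∀ i ∈ t, ∑ j ∈ s.erase b, u i * u j * r i j = w i * (w a + w b) * r a i +
        ∑ j ∈ t, w i * w j * r i j := by
      intro i hi
      rw [et, hut i hi, hua, hsymm i a]
      congr 1
      exact Finset.sum_congr rfl fun j hj => by rw [hut j hj]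
    rw [Finset.sum_congr rfl h1, Finset.sum_add_distrib, hd]
    have e1 : ∑ i ∈ t, u a * u i * r a i = (w a + w b) * ∑ k ∈ t, w k * r a k := by
      rw [Finset.mul_sum]; exact Finset.sum_congr rfl fun i hi => by rw [hut i hi, hua]; ring
    have e3 : ∑ i ∈ t, w i * (w a + w b) * r a i = (w a + w b) * ∑ k ∈ t, w k * r a k := by
      rw [Finset.mul_sum]; exact Finset.sum_congr rfl fun _ _ => by ring
    rw [e1, e3]; ring
  rw [lhs, rhs]
  nlinarith [hw b]

theorem copositive (r : ι → ι → ℝ) (hd : ∀ i, r i i = 0)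
    (h2 : ∀ i j k, r i j = 2 → r i k = 2 → j ≠ k → r j k = 0)
    (hv : ∀ i j, r i j = 0 ∨ r i j = 1 ∨ r i j = 2)
    (hsymm : ∀ i j, r i j = r j i) :
    ∀ (n : ℕ) (w : ι → ℝ), (∀ i, 0 ≤ w i) → ∀ s : Finset ι, s.card = n →
      QQ r w s ≤ (∑ i ∈ s, w i) ^ 2 := by
  intro n
  induction n with
  | zero =>
    intro w _ s hs
    rw [Finset.card_eq_zero] at hs
    subst hs
    simp [QQ]
  | succ n ih =>
    intro w hw s hs
    by_cases hcl : ∀ i ∈ s, ∀ j ∈ s, i ≠ j → r i j ≠ 0
    · exact QQ_clique r hd h2 hv hsymm w s hcl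
    · push Not at hcl
      obtain ⟨a, ha, b, hb, hab, h0⟩ := hcl
      have main : ∀ a ∈ s, ∀ b ∈ s, a ≠ b → r a b = 0 →
          ∑ k ∈ s, w k * r b k ≤ ∑ k ∈ s, w k * r a k → QQ r w s ≤ (∑ i ∈ s, w i) ^ 2 := by
        intro a ha b hb hab h0 hL
        refine le_trans (QQ_move r hd hsymm w hw s a b ha hb hab h0 hL) ?_
        have hcard : (s.erase b).card = n := by rw [Finset.card_erase_of_mem hb, hs]; rfl
        have := ih (Function.update w a (w a + w b)) (fun i => by
          by_cases h : i = a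
          · subst h; simp; linarith [hw i, hw b]
          · simp [h, hw i]) (s.erase b) hcard
        refine le_trans this (le_of_eq ?_)
        congr 1
        have hat : a ∈ s.erase b := Finset.mem_erase.2 ⟨hab, ha⟩
        rw [← Finset.add_sum_erase s w hb, ← Finset.add_sum_erase (s.erase b) w hat,
          ← Finset.add_sum_erase (s.erase b) _ hat]
        have : ∑ x ∈ (s.erase b).erase a, Function.update w a (w a + w b) x =
            ∑ x ∈ (s.erase b).erase a, w x := by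
          refine Finset.sum_congr rfl fun i hi => ?_
          have : i ≠ a := (Finset.mem_erase.1 hi).1
          simp [this]
        rw [this]; simp; ring
      rcases le_total (∑ k ∈ s, w k * r b k) (∑ k ∈ s, w k * r a k) with h | h
      · exact main a ha b hb hab h0 h
      · exact main b hb a ha (Ne.symm hab) (by rw [hsymm]; exact h0) h

end Copositive


/-! ### Geometry of pairs of edges -/

section Geometry

theorem sq_expand (a b c : Fin d → ℤ) : ∑ i, (a i + b i - c i) ^ 2 =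
    ∑ i, a i ^ 2 + ∑ i, b i ^ 2 + ∑ i, c i ^ 2 + 2 * ∑ i, a i * b i - 2 * ∑ i, a i * c i -
      2 * ∑ i, b i * c i := by
  simp only [Finset.mul_sum, ← Finset.sum_add_distrib, ← Finset.sum_sub_distrib]
  exact Finset.sum_congr rfl fun i _ => by ring

theorem sq_add (a b : Fin d → ℤ) : ∑ i, (a i + b i) ^ 2 =
    ∑ i, a i ^ 2 + ∑ i, b i ^ 2 + 2 * ∑ i, a i * b i := by
  simp only [Finset.mul_sum, ← Finset.sum_add_distrib]
  exact Finset.sum_congr rfl fun i _ => by ring

theorem sq_sub (a b : Fin d → ℤ) : ∑ i, (a i - b i) ^ 2 =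
    ∑ i, a i ^ 2 + ∑ i, b i ^ 2 - 2 * ∑ i, a i * b i := by
  simp only [Finset.mul_sum, ← Finset.sum_add_distrib, ← Finset.sum_sub_distrib]
  exact Finset.sum_congr rfl fun i _ => by ring

theorem sq_zero (a : Fin d → ℤ) (h : ∑ i, a i ^ 2 = 0) : a = 0 := by
  funext i
  have := (Finset.sum_eq_zero_iff_of_nonneg (fun i _ => sq_nonneg (a i))).1 h i (Finset.mem_univ i)
  simpa using this

theorem sq_nonneg' (a : Fin d → ℤ) : 0 ≤ ∑ i, a i ^ 2 := Finset.sum_nonneg fun i _ => sq_nonneg _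

/-- unit vectors: inner product at most zero if different -/
theorem ip_le (a b : Fin d → ℤ) (ha : ∑ i, a i ^ 2 = 1) (hb : ∑ i, b i ^ 2 = 1) (h : a ≠ b) :
    ∑ i, a i * b i ≤ 0 := by
  have h1 := sq_sub a b
  have h2 : 0 ≤ ∑ i, (a i - b i) ^ 2 := Finset.sum_nonneg fun i _ => sq_nonneg _
  by_contra hc
  push Not at hc
  have h3 : ∑ i, (a i - b i) ^ 2 = 0 := by omega
  apply h
  have := sq_zero (fun i => a i - b i) h3
  funext i
  have := congrFun this i
  simp at this
  omega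

theorem ip_ge (a b : Fin d → ℤ) (ha : ∑ i, a i ^ 2 = 1) (hb : ∑ i, b i ^ 2 = 1)
    (h : ¬ ∀ i, a i + b i = 0) : 0 ≤ ∑ i, a i * b i := by
  have h1 := sq_add a b
  have h2 : 0 ≤ ∑ i, (a i + b i) ^ 2 := Finset.sum_nonneg fun i _ => sq_nonneg _
  by_contra hc
  push Not at hc
  have h3 : ∑ i, (a i + b i) ^ 2 = 0 := by omega
  apply h
  have := sq_zero (fun i => a i + b i) h3
  intro i
  simpa using congrFun this i

/-- a four-cycle is a parallelogram with orthogonal sides -/
theorem square (a b c : Fin d → ℤ) (ha : ∑ i, a i ^ 2 = 1) (hb : ∑ i, b i ^ 2 = 1)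
    (hc : ∑ i, c i ^ 2 = 1) (h : ∑ i, (a i + b i - c i) ^ 2 = 1)
    (hab : ¬ ∀ i, a i + b i = 0) (hac : a ≠ c) : b = c ∧ ∑ i, a i * b i = 0 := by
  have h1 := sq_expand a b c
  have h2 := ip_ge a b ha hb hab
  have h3 := ip_le a c ha hc hac
  have hbc : b = c := by
    by_contra hne
    have h4 := ip_le b c hb hc hne
    omega
  refine ⟨hbc, ?_⟩
  subst hbc
  omega

variable {ι : Type*}

/-- the interaction of two edges, given by even and odd end points -/
noncomputable def rr (p q : ι → (Fin d → ℤ)) (i j : ι) : ℝ :=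
  (if Nbr (p i) (q j) then 1 else 0) + (if Nbr (p j) (q i) then 1 else 0) -
    (if p i = p j then 1 else 0) - (if q i = q j then 1 else 0)

theorem rr_symm (p q : ι → (Fin d → ℤ)) (i j : ι) : rr p q i j = rr p q j i := by
  unfold rr
  have h1 : (if p i = p j then (1 : ℝ) else 0) = if p j = p i then 1 else 0 := by
    simp only [eq_comm]
  have h2 : (if q i = q j then (1 : ℝ) else 0) = if q j = q i then 1 else 0 := by
    simp only [eq_comm]
  rw [h1, h2]
  ring

theorem rr_diag (p q : ι → (Fin d → ℤ)) (h : ∀ i, Nbr (p i) (q i)) (i : ι) : rr p q i i = 0 := by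
  unfold rr; simp [h i]

theorem rr_val (p q : ι → (Fin d → ℤ)) (h : ∀ i, Nbr (p i) (q i)) (i j : ι) :
    rr p q i j = 0 ∨ rr p q i j = 1 ∨ rr p q i j = 2 := by
  unfold rr
  by_cases h1 : p i = p j
  · have h2 : Nbr (p i) (q j) := by rw [h1]; exact h j
    have h3 : Nbr (p j) (q i) := by rw [← h1]; exact h i
    by_cases h4 : q i = q j
    · left; simp [h1, h4, h j]
    · right; left; simp only [if_pos h1, if_pos h2, if_pos h3, if_neg h4]; norm_num
  · by_cases h4 : q i = q j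
    · have h2 : Nbr (p i) (q j) := by rw [← h4]; exact h i
      have h3 : Nbr (p j) (q i) := by rw [h4]; exact h j
      right; left; simp only [if_neg h1, if_pos h2, if_pos h3, if_pos h4]; norm_num
    · simp only [if_neg h1, if_neg h4]
      by_cases h2 : Nbr (p i) (q j) <;> by_cases h3 : Nbr (p j) (q i) <;> (simp [h2, h3]; try norm_num)

theorem rr_two (p q : ι → (Fin d → ℤ)) (i j : ι)
    (h2 : rr p q i j = 2) : p i ≠ p j ∧ q i ≠ q j ∧ Nbr (p i) (q j) ∧ Nbr (p j) (q i) := by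
  unfold rr at h2
  refine ⟨fun h1 => ?_, fun h1 => ?_, ?_, ?_⟩
  · simp only [if_pos h1] at h2
    split_ifs at h2 <;> norm_num at h2
  · simp only [if_pos h1] at h2
    split_ifs at h2 <;> norm_num at h2
  · by_contra h1
    simp only [if_neg h1] at h2
    split_ifs at h2 <;> norm_num at h2
  · by_contra h1
    simp only [if_neg h1] at h2
    split_ifs at h2 <;> norm_num at h2

/-- if `r i j = 2` then `q j - p i = p j - q i` is a unit vector orthogonal to `q i - p i`. -/
theorem rr_two' (p q : ι → (Fin d → ℤ)) (h : ∀ i, Nbr (p i) (q i)) (i j : ι)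
    (h2 : rr p q i j = 2) : ∃ b : Fin d → ℤ, ∑ k, b k ^ 2 = 1 ∧
      ∑ k, (q i k - p i k) * b k = 0 ∧ (∀ k, p j k = q i k + b k) ∧ ∀ k, q j k = p i k + b k := by
  obtain ⟨hp, hq, hn1, hn2⟩ := rr_two p q i j h2
  have e : ∀ (x y : Fin d → ℤ), Nbr x y → ∑ k, (y k - x k) ^ 2 = 1 := by
    intro x y hxy
    rw [← hxy]
    exact Finset.sum_congr rfl fun k _ => by ring
  have ha : ∑ k, (fun k => q i k - p i k) k ^ 2 = 1 := e _ _ (h i)
  have hb : ∑ k, (fun k => p j k - q i k) k ^ 2 = 1 := hn2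
  have hc : ∑ k, (fun k => q j k - p i k) k ^ 2 = 1 := e _ _ hn1
  have hd : ∑ k, ((fun k => q i k - p i k) k + (fun k => p j k - q i k) k -
      (fun k => q j k - p i k) k) ^ 2 = 1 := by
    rw [← h j]
    exact Finset.sum_congr rfl fun k _ => by ring
  obtain ⟨h3, h4⟩ := square _ _ _ ha hb hc hd (fun h5 => hp (by
    funext k; have := h5 k; omega)) (fun h5 => hq (by
    funext k; have := congrFun h5 k; omega))
  refine ⟨fun k => p j k - q i k, hb, h4, fun k => by ring, fun k => ?_⟩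
  have := congrFun h3 k
  simp only at this ⊢
  omega

theorem rr_key (p q : ι → (Fin d → ℤ)) (h : ∀ i, Nbr (p i) (q i)) (i j k : ι)
    (h2 : rr p q i j = 2) (h3 : rr p q i k = 2) : rr p q j k = 0 := by
  obtain ⟨b, hb, hab, hpj, hqj⟩ := rr_two' p q h i j h2
  obtain ⟨c, hc, hac, hpk, hqk⟩ := rr_two' p q h i k h3
  by_cases hbc : b = c
  · subst hbc
    have e1 : p j = p k := by funext l; rw [hpj, hpk]
    have e2 : q j = q k := by funext l; rw [hqj, hqk]
    unfold rr
    rw [e1, e2]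
    simp [h k]
  · have hip := ip_le b c hb hc hbc
    have e1 : p j ≠ p k := by
      intro h5; apply hbc; funext l
      have := congrFun h5 l; rw [hpj, hpk] at this; omega
    have e2 : q j ≠ q k := by
      intro h5; apply hbc; funext l
      have := congrFun h5 l; rw [hqj, hqk] at this; omega
    have ha : ∑ l, (q i l - p i l) ^ 2 = 1 := by
      rw [← h i]; exact Finset.sum_congr rfl fun k _ => by ring
    have e3 : ¬ Nbr (p j) (q k) := by
      unfold Nbr
      have : ∑ l, (p j l - q k l) ^ 2 =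
          ∑ l, ((fun l => q i l - p i l) l + b l - c l) ^ 2 :=
        Finset.sum_congr rfl fun l _ => by rw [hpj, hqk]; ring
      rw [this, sq_expand]
      omega
    have e4 : ¬ Nbr (p k) (q j) := by
      unfold Nbr
      have : ∑ l, (p k l - q j l) ^ 2 =
          ∑ l, ((fun l => q i l - p i l) l + c l - b l) ^ 2 :=
        Finset.sum_congr rfl fun l _ => by rw [hpk, hqj]; ring
      rw [this, sq_expand]
      have : ∑ l, c l * b l = ∑ l, b l * c l := Finset.sum_congr rfl fun l _ => by ring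
      omega
    unfold rr
    simp [e1, e2, e3, e4]

theorem rr_sum (p q : ι → (Fin d → ℤ)) (h : ∀ i, Nbr (p i) (q i)) (s : Finset ι) :
    ∑ i ∈ s, ∑ j ∈ s, rr p q i j ≤ (s.card : ℝ) ^ 2 := by
  classical
  have := copositive (rr p q) (rr_diag p q h)
    (fun i j k h2 h3 _ => rr_key p q h i j k h2 h3) (rr_val p q h) (rr_symm p q) s.card
    (fun _ => 1) (fun _ => zero_le_one) s rfl
  simpa [QQ] using this

end Geometry


/-! ### Energy of finite combinations of point masses -/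

section Energy

theorem tsum_delta {ι : Type*} (s : Finset ι) (c : ι → ℝ) (z : ι → (Fin d → ℤ))
    (f : (Fin d → ℤ) → ℝ) (hf : ∀ x, f x = ∑ i ∈ s, if x = z i then c i else 0)
    (g : (Fin d → ℤ) → ℝ) : HasSum (fun y => g y * f y) (∑ i ∈ s, c i * g (z i)) := by
  have : (fun y => g y * f y) = fun y => ∑ i ∈ s, if y = z i then c i * g (z i) else 0 := by
    funext y
    rw [hf, Finset.mul_sum]
    refine Finset.sum_congr rfl fun i _ => ?_
    by_cases h : y = z i
    · simp [h]; ring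
    · simp [h]
  rw [this]
  exact hasSum_sum fun i _ => hasSum_ite_eq (z i) (c i * g (z i))

theorem energy_delta {ι : Type*} (β γ : ℝ) (s : Finset ι) (c : ι → ℝ) (z : ι → (Fin d → ℤ))
    (f : (Fin d → ℤ) → ℝ) (hf : ∀ x, f x = ∑ i ∈ s, if x = z i then c i else 0) :
    energy d β γ f = ∑ i ∈ s, ∑ j ∈ s, c i * c j * F d β γ (z i) (z j) := by
  unfold energy
  have h1 : ∀ x, ∑' y, f x * F d β γ x y * f y = (∑ j ∈ s, c j * F d β γ x (z j)) * f x := by
    intro x
    have := (tsum_delta s c z f hf (fun y => f x * F d β γ x y)).tsum_eq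
    rw [this, Finset.sum_mul]
    exact Finset.sum_congr rfl fun j _ => by ring
  simp only [h1]
  rw [(tsum_delta s c z f hf (fun x => ∑ j ∈ s, c j * F d β γ x (z j))).tsum_eq]
  refine Finset.sum_congr rfl fun i _ => ?_
  rw [Finset.mul_sum]
  exact Finset.sum_congr rfl fun j _ => by ring

/-- unit vectors -/
noncomputable def U (d : ℕ) : Finset (Fin d → ℤ) :=
  (Fintype.piFinset fun _ : Fin d => Finset.Icc (-1 : ℤ) 1).filter fun u => ∑ i, u i ^ 2 = 1

theorem mem_U (u : Fin d → ℤ) : u ∈ U d ↔ ∑ i, u i ^ 2 = 1 := by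
  unfold U
  rw [Finset.mem_filter, and_iff_right_iff_imp, Fintype.mem_piFinset]
  intro h i
  rw [Finset.mem_Icc]
  have : u i ^ 2 ≤ 1 := by
    rw [← h]
    exact Finset.single_le_sum (f := fun i => u i ^ 2) (fun i _ => sq_nonneg (u i))
      (Finset.mem_univ i)
  constructor <;> nlinarith

/-- the field at `x` -/
noncomputable def LL (d : ℕ) (β γ : ℝ) (f : (Fin d → ℤ) → ℝ) (x : Fin d → ℤ) : ℝ :=
  -β * f x + γ / (2 * d) * ∑ u ∈ U d, f (x + u)

theorem inner_eq (β γ : ℝ) (f : (Fin d → ℤ) → ℝ) (x : Fin d → ℤ) :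
    ∑' y, f x * F d β γ x y * f y = f x * LL d β γ f x := by
  have hx : x ∉ (U d).image (fun u => x + u) := by
    intro h
    rw [Finset.mem_image] at h
    obtain ⟨u, hu, h⟩ := h
    have : u = 0 := by simpa using h
    rw [mem_U, this] at hu
    simp at hu
  have hsupp : ∀ y ∉ insert x ((U d).image (fun u => x + u)), f x * F d β γ x y * f y = 0 := by
    intro y hy
    rw [Finset.mem_insert, not_or, Finset.mem_image] at hy
    have h1 : x ≠ y := fun h => hy.1 h.symm
    have h2 : ¬ Nbr x y := by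
      intro h
      apply hy.2
      refine ⟨y - x, ?_, by abel⟩
      rw [mem_U, ← h]
      exact Finset.sum_congr rfl fun i _ => by simp; ring
    unfold F
    simp [h1, h2]
  rw [tsum_eq_sum hsupp, Finset.sum_insert hx, Finset.sum_image (by
    intro u _ v _ h; simpa using h)]
  have h1 : F d β γ x x = -β := by simp [F]
  have h2 : ∀ u ∈ U d, f x * F d β γ x (x + u) * f (x + u) = f x * (γ / (2 * d)) * f (x + u) := by
    intro u hu
    have hu' := (mem_U u).1 hu
    have hne : x ≠ x + u := by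
      intro h
      have : u = 0 := by simpa using h
      rw [this] at hu'; simp at hu'
    have hn : Nbr x (x + u) := by
      unfold Nbr; rw [← hu']
      exact Finset.sum_congr rfl fun i _ => by simp
    simp [F, hne, hn]
  rw [Finset.sum_congr rfl h2, h1, ← Finset.mul_sum]
  unfold LL
  ring

theorem energy_eq (β γ : ℝ) (f : (Fin d → ℤ) → ℝ) :
    energy d β γ f = ∑' x, f x * LL d β γ f x := by
  unfold energy
  simp only [inner_eq]

/-- the constant used for uniform bounds -/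
noncomputable def CC (d : ℕ) (β γ : ℝ) : ℝ := β + γ / (2 * d) * (U d).card

theorem LL_abs (β γ : ℝ) (hβ : 0 ≤ β) (hγ : 0 ≤ γ) (f : (Fin d → ℤ) → ℝ) (h0 : ∀ x, 0 ≤ f x)
    (h1 : ∀ x, f x ≤ 1) (x : Fin d → ℤ) : |LL d β γ f x| ≤ CC d β γ := by
  have hg : 0 ≤ γ / (2 * (d : ℝ)) := by positivity
  have hs0 : 0 ≤ ∑ u ∈ U d, f (x + u) := Finset.sum_nonneg fun u _ => h0 _
  have hs1 : ∑ u ∈ U d, f (x + u) ≤ (U d).card := by
    calc ∑ u ∈ U d, f (x + u) ≤ ∑ u ∈ U d, (1 : ℝ) := Finset.sum_le_sum fun u _ => h1 _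
      _ = (U d).card := by simp
  have h2 : γ / (2 * (d : ℝ)) * ∑ u ∈ U d, f (x + u) ≤ γ / (2 * (d : ℝ)) * (U d).card :=
    mul_le_mul_of_nonneg_left hs1 hg
  have h3 : 0 ≤ γ / (2 * (d : ℝ)) * ∑ u ∈ U d, f (x + u) := mul_nonneg hg hs0
  have h4 : 0 ≤ γ / (2 * (d : ℝ)) * (U d).card := mul_nonneg hg (Nat.cast_nonneg _)
  have h5 : β * f x ≤ β := by nlinarith [h1 x]
  have h6 : 0 ≤ β * f x := mul_nonneg hβ (h0 x)
  unfold LL CC
  rw [abs_le]
  constructor <;> linarith

theorem sum_shift (β γ : ℝ) (hβ : 0 ≤ β) (hγ : 0 ≤ γ) (f : (Fin d → ℤ) → ℝ) (h0 : ∀ x, 0 ≤ f x)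
    (hs : HasSum f 1) :
    (∀ x, 0 ≤ CC d β γ * f x + f x * LL d β γ f x) ∧
    HasSum (fun x => CC d β γ * f x + f x * LL d β γ f x) (CC d β γ + energy d β γ f) := by
  have h1 : ∀ x, f x ≤ 1 := fun x => le_hasSum hs x fun y _ => h0 y
  refine ⟨fun x => ?_, ?_⟩
  · have := (abs_le.1 (LL_abs β γ hβ hγ f h0 h1 x)).1
    nlinarith [h0 x]
  · have e1 : HasSum (fun x => CC d β γ * f x) (CC d β γ) := by
      simpa using hs.mul_left (CC d β γ)
    have e2 : Summable fun x => f x * LL d β γ f x := by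
      refine Summable.of_norm_bounded (g := fun x => f x * CC d β γ) (hs.summable.mul_right _) ?_
      intro x
      rw [Real.norm_eq_abs, abs_mul, abs_of_nonneg (h0 x)]
      exact mul_le_mul_of_nonneg_left (LL_abs β γ hβ hγ f h0 h1 x) (h0 x)
    rw [energy_eq]
    exact e1.add e2.hasSum

/-- Fatou-type semicontinuity -/
theorem energy_le_of_tendsto (β γ : ℝ) (hβ : 0 ≤ β) (hγ : 0 ≤ γ) (M : ℝ)
    (f : ℕ → (Fin d → ℤ) → ℝ) (g : (Fin d → ℤ) → ℝ)
    (hf : ∀ᶠ k in atTop, (∀ x, 0 ≤ f k x) ∧ HasSum (f k) 1 ∧ energy d β γ (f k) ≤ M)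
    (g0 : ∀ x, 0 ≤ g x) (g1 : HasSum g 1)
    (hlim : ∀ x, Tendsto (fun k => f k x) atTop (𝓝 (g x))) : energy d β γ g ≤ M := by
  obtain ⟨-, hg⟩ := sum_shift β γ hβ hγ g g0 g1
  have hL : ∀ x, Tendsto (fun k => CC d β γ * f k x + f k x * LL d β γ (f k) x) atTop
      (𝓝 (CC d β γ * g x + g x * LL d β γ g x)) := by
    intro x
    have hLL : Tendsto (fun k => LL d β γ (f k) x) atTop (𝓝 (LL d β γ g x)) := by
      unfold LL
      exact ((hlim x).const_mul _).add ((tendsto_finsetSum _ fun u _ => hlim (x + u)).const_mul _)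
    exact ((hlim x).const_mul _).add ((hlim x).mul hLL)
  have hle : CC d β γ + energy d β γ g ≤ CC d β γ + M := by
    refine hasSum_le_of_sum_le hg fun S => ?_
    refine le_of_tendsto (tendsto_finsetSum S fun x _ => hL x) ?_
    filter_upwards [hf] with k hk
    obtain ⟨h0, h1, hM⟩ := hk
    obtain ⟨hn, hsum⟩ := sum_shift β γ hβ hγ (f k) h0 h1
    calc ∑ x ∈ S, (CC d β γ * f k x + f k x * LL d β γ (f k) x)
        ≤ CC d β γ + energy d β γ (f k) := sum_le_hasSum S (fun x _ => hn x) hsum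
      _ ≤ CC d β γ + M := by linarith
  linarith

end Energy


/-! ### Local times of paths -/

section Paths

theorem odd_of_nbr (x y : Fin d → ℤ) (h : Nbr x y) : (∑ i, x i - ∑ i, y i) % 2 = 1 := by
  unfold Nbr at h
  have h1 : (∑ i, (x i - y i)) % 2 = (∑ i, (x i - y i) ^ 2) % 2 := by
    rw [Finset.sum_int_mod, Finset.sum_int_mod univ 2 fun i => (x i - y i) ^ 2]
    congr 1
    refine Finset.sum_congr rfl fun i _ => ?_
    rcases Int.even_or_odd' (x i - y i) with ⟨k, hk | hk⟩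
    · rw [hk]; ring_nf; omega
    · rw [hk]; ring_nf; omega
  rw [Finset.sum_sub_distrib, h] at h1
  rw [h1]; rfl

theorem localTime_eq (n : ℕ) (w : ℕ → (Fin d → ℤ)) (x : Fin d → ℤ) :
    localTime n w x = ∑ i ∈ Finset.range n,
      ((if x = w i then 1 / 2 else 0) + (if x = w (i + 1) then 1 / 2 else 0)) := by
  unfold localTime
  have h1 : ((((Finset.range (n + 1)).filter fun i => w i = x).card : ℕ) : ℝ) =
      ∑ i ∈ Finset.range (n + 1), (if w i = x then (1 : ℝ) else 0) := by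
    rw [Finset.sum_boole]
  have h2 : ∀ i, (if w i = x then (1 : ℝ) else 0) =
      (if x = w i then 1 / 2 else 0) + (if x = w i then 1 / 2 else 0) := by
    intro i
    by_cases h : x = w i
    · simp [h]; norm_num
    · simp [h, Ne.symm h]
  have h3 : ∀ i, (if w i = x then (1 / 2 : ℝ) else 0) = if x = w i then 1 / 2 else 0 := by
    intro i; simp only [eq_comm]
  rw [h1, Finset.sum_congr rfl fun i _ => h2 i, Finset.sum_add_distrib, Finset.sum_add_distrib,
    h3, h3]
  nth_rewrite 1 [Finset.sum_range_succ]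
  rw [Finset.sum_range_succ']
  ring

variable (w : ℕ → (Fin d → ℤ))

/-- even end point of the `i`-th step -/
noncomputable def pe (i : ℕ) : Fin d → ℤ := if (∑ k, w i k) % 2 = 0 then w i else w (i + 1)

/-- odd end point of the `i`-th step -/
noncomputable def qe (i : ℕ) : Fin d → ℤ := if (∑ k, w i k) % 2 = 0 then w (i + 1) else w i

theorem pe_qe (i : ℕ) (h : Nbr (w (i + 1)) (w i)) : Nbr (pe w i) (qe w i) ∧
    (∑ k, pe w i k) % 2 = 0 ∧ (∑ k, qe w i k) % 2 = 1 := by
  have ho := odd_of_nbr _ _ h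
  have h' : Nbr (w i) (w (i + 1)) := by
    unfold Nbr at h ⊢
    rw [← h]; exact Finset.sum_congr rfl fun k _ => by ring
  unfold pe qe
  by_cases h1 : (∑ k, w i k) % 2 = 0
  · simp only [h1, if_true]
    exact ⟨h', trivial, by omega⟩
  · simp only [h1, if_false]
    exact ⟨h, by omega, by omega⟩

/-- all end points of the steps -/
noncomputable def ze (a : ℕ × Bool) : Fin d → ℤ := if a.2 then pe w a.1 else qe w a.1

theorem local_delta (n : ℕ) (x : Fin d → ℤ) : 1 / (n : ℝ) * localTime n w x =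
    ∑ a ∈ Finset.range n ×ˢ (Finset.univ : Finset Bool),
      if x = ze w a then 1 / (2 * (n : ℝ)) else 0 := by
  rw [localTime_eq, Finset.sum_product, Finset.mul_sum]
  refine Finset.sum_congr rfl fun i _ => ?_
  rw [Fintype.sum_bool]
  unfold ze pe qe
  simp only [if_true, Bool.false_eq_true, if_false]
  by_cases h1 : (∑ k, w i k) % 2 = 0
  · simp only [h1, if_true]
    split_ifs <;> ring
  · simp only [h1, if_false]
    split_ifs <;> ring

theorem F_sum (γ : ℝ) (p q : ℕ → (Fin d → ℤ)) (i j : ℕ)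
    (hpi : (∑ k, p i k) % 2 = 0) (hqi : (∑ k, q i k) % 2 = 1)
    (hpj : (∑ k, p j k) % 2 = 0) (hqj : (∑ k, q j k) % 2 = 1) :
    F d (γ / (2 * d)) γ (p i) (p j) + F d (γ / (2 * d)) γ (p i) (q j) +
      F d (γ / (2 * d)) γ (q i) (p j) + F d (γ / (2 * d)) γ (q i) (q j) =
      γ / (2 * d) * rr p q i j := by
  have n1 : ¬ Nbr (p i) (p j) := fun h => by have := odd_of_nbr _ _ h; omega
  have n2 : ¬ Nbr (q i) (q j) := fun h => by have := odd_of_nbr _ _ h; omega
  have n3 : p i ≠ q j := fun h => by rw [h] at hpi; omega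
  have n4 : q i ≠ p j := fun h => by rw [h] at hqi; omega
  have e : (if Nbr (q i) (p j) then (1 : ℝ) else 0) = if Nbr (p j) (q i) then 1 else 0 := by
    have : Nbr (q i) (p j) ↔ Nbr (p j) (q i) := by
      unfold Nbr
      have : ∑ k, (q i k - p j k) ^ 2 = ∑ k, (p j k - q i k) ^ 2 :=
        Finset.sum_congr rfl fun k _ => by ring
      rw [this]
    simp only [this]
  have f1 : F d (γ / (2 * d)) γ (p i) (p j) = - (γ / (2 * d)) * (if p i = p j then 1 else 0) := by
    unfold F; by_cases h : p i = p j <;> simp [h, n1]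
  have f2 : F d (γ / (2 * d)) γ (q i) (q j) = - (γ / (2 * d)) * (if q i = q j then 1 else 0) := by
    unfold F; by_cases h : q i = q j <;> simp [h, n2]
  have f3 : F d (γ / (2 * d)) γ (p i) (q j) = (γ / (2 * d)) * (if Nbr (p i) (q j) then 1 else 0) := by
    unfold F; simp [n3]
  have f4 : F d (γ / (2 * d)) γ (q i) (p j) = (γ / (2 * d)) * (if Nbr (q i) (p j) then 1 else 0) := by
    unfold F; simp [n4]
  rw [f1, f2, f3, f4, e]
  unfold rr
  ring

theorem energy_path (hd : 0 < d) (γ : ℝ) (hγ : 0 < γ) (n : ℕ) (hn : 0 < n) (hw : IsPath n w) :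
    energy d (γ / (2 * d)) γ (fun x => 1 / (n : ℝ) * localTime n w x) ≤ γ / (8 * d) := by
  classical
  rw [energy_delta (γ / (2 * d)) γ (Finset.range n ×ˢ (Finset.univ : Finset Bool))
    (fun _ => 1 / (2 * (n : ℝ))) (ze w) _ (fun x => local_delta w n x)]
  -- extend to all indices with a dummy edge
  set P : ℕ → (Fin d → ℤ) := fun i => if i < n then pe w i else pe w 0 with hP
  set Q : ℕ → (Fin d → ℤ) := fun i => if i < n then qe w i else qe w 0 with hQ
  have hPQ : ∀ i, Nbr (P i) (Q i) ∧ (∑ k, P i k) % 2 = 0 ∧ (∑ k, Q i k) % 2 = 1 := by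
    intro i
    by_cases h : i < n
    · simp only [hP, hQ, h, if_true]; exact pe_qe w i (hw i h)
    · simp only [hP, hQ, h, if_false]; exact pe_qe w 0 (hw 0 hn)
  have key : ∑ a ∈ Finset.range n ×ˢ (Finset.univ : Finset Bool),
      ∑ b ∈ Finset.range n ×ˢ (Finset.univ : Finset Bool),
        1 / (2 * (n : ℝ)) * (1 / (2 * (n : ℝ))) * F d (γ / (2 * d)) γ (ze w a) (ze w b) =
      (1 / (2 * (n : ℝ))) ^ 2 * (γ / (2 * d)) *
        ∑ i ∈ Finset.range n, ∑ j ∈ Finset.range n, rr P Q i j := by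
    rw [Finset.sum_product, Finset.mul_sum]
    refine Finset.sum_congr rfl fun i hi => ?_
    rw [Finset.mul_sum]
    simp only [Finset.sum_product, Fintype.sum_bool]
    rw [← Finset.sum_add_distrib]
    refine Finset.sum_congr rfl fun j hj => ?_
    have hi' : i < n := Finset.mem_range.1 hi
    have hj' : j < n := Finset.mem_range.1 hj
    have ei : P i = pe w i := by simp [hP, hi']
    have ej : P j = pe w j := by simp [hP, hj']
    have fi : Q i = qe w i := by simp [hQ, hi']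
    have fj : Q j = qe w j := by simp [hQ, hj']
    have := F_sum γ P Q i j (hPQ i).2.1 (hPQ i).2.2 (hPQ j).2.1 (hPQ j).2.2
    simp only [ze, if_true, Bool.false_eq_true, if_false]
    rw [← ei, ← ej, ← fi, ← fj]
    linear_combination (1 / (2 * (n : ℝ))) ^ 2 * this
  rw [key]
  have h1 := rr_sum P Q (fun i => (hPQ i).1) (Finset.range n)
  rw [Finset.card_range] at h1
  have hn' : (0 : ℝ) < n := by exact_mod_cast hn
  have hd' : (0 : ℝ) < d := by exact_mod_cast hd
  have h2 : 0 ≤ (1 / (2 * (n : ℝ))) ^ 2 * (γ / (2 * d)) := by positivity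
  calc (1 / (2 * (n : ℝ))) ^ 2 * (γ / (2 * d)) *
        ∑ i ∈ Finset.range n, ∑ j ∈ Finset.range n, rr P Q i j
      ≤ (1 / (2 * (n : ℝ))) ^ 2 * (γ / (2 * d)) * (n : ℝ) ^ 2 := mul_le_mul_of_nonneg_left h1 h2
    _ = γ / (8 * d) := by field_simp; ring

theorem local_nonneg (n : ℕ) (x : Fin d → ℤ) : 0 ≤ 1 / (n : ℝ) * localTime n w x := by
  rw [local_delta]
  exact Finset.sum_nonneg fun a _ => by split_ifs <;> positivity

theorem local_sum (n : ℕ) (hn : 0 < n) : HasSum (fun x => 1 / (n : ℝ) * localTime n w x) 1 := by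
  have hn' : (0 : ℝ) < n := by exact_mod_cast hn
  have h := tsum_delta (Finset.range n ×ˢ (Finset.univ : Finset Bool))
    (fun _ => 1 / (2 * (n : ℝ))) (ze w) _ (fun x => local_delta w n x) (fun _ => 1)
  have e : ∑ i ∈ Finset.range n ×ˢ (Finset.univ : Finset Bool), 1 / (2 * (n : ℝ)) * 1 = 1 := by
    rw [Finset.sum_const, Finset.card_product]
    simp
    field_simp
  rw [e] at h
  simpa using h

/-- the upper bound for all elements of `Limits d` -/
theorem energy_le (hd : 0 < d) (γ : ℝ) (hγ : 0 < γ) (g : (Fin d → ℤ) → ℝ) (hg : g ∈ Limits d) :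
    energy d (γ / (2 * d)) γ g ≤ γ / (8 * d) := by
  obtain ⟨g0, g1, n, w, hn, hw, hlim⟩ := hg
  refine energy_le_of_tendsto _ _ (by positivity) hγ.le _
    (fun k x => 1 / (n k : ℝ) * localTime (n k) (w k) x) g ?_ g0 g1 hlim
  filter_upwards [hn.eventually_gt_atTop 0] with k hk
  exact ⟨local_nonneg (w k) (n k), local_sum (w k) (n k) hk, energy_path (w k) hd γ hγ _ hk (hw k)⟩

end Paths


/-! ### The family of maximisers -/

section Family

/-- The point `(a, b, 0, …, 0)`. -/
def P (d : ℕ) (a b : ℤ) : Fin d → ℤ := fun i => if i.val = 0 then a else if i.val = 1 then b else 0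

theorem P_dist (hd : 2 ≤ d) (a b a' b' : ℤ) :
    ∑ i, (P d a b i - P d a' b' i) ^ 2 = (a - a') ^ 2 + (b - b') ^ 2 := by
  obtain ⟨e, rfl⟩ : ∃ e, d = e + 2 := ⟨d - 2, by omega⟩
  rw [Fin.sum_univ_succ, Fin.sum_univ_succ]
  have : ∑ i : Fin e, (P (e + 2) a b i.succ.succ - P (e + 2) a' b' i.succ.succ) ^ 2 = 0 := by
    refine Finset.sum_eq_zero fun i _ => ?_
    simp [P]
  rw [this]
  simp [P]

theorem P_inj (hd : 2 ≤ d) (a b a' b' : ℤ) : P d a b = P d a' b' ↔ a = a' ∧ b = b' := by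
  constructor
  · intro h
    have h1 := P_dist hd a b a' b'
    rw [h] at h1
    simp at h1
    constructor <;> nlinarith [sq_nonneg (a - a'), sq_nonneg (b - b')]
  · rintro ⟨rfl, rfl⟩; rfl

theorem nbr_P (hd : 2 ≤ d) (a b a' b' : ℤ) :
    Nbr (P d a b) (P d a' b') ↔ (a - a') ^ 2 + (b - b') ^ 2 = 1 := by
  unfold Nbr; rw [P_dist hd]

/-- The measure with mass `t/2` at `(0,0), (1,0)`, mass `1/4` at `(0,1), (1,1)` and mass
`(1/2 - t)/2` at `(0,2), (1,2)` (all other coordinates zero). -/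
noncomputable def fam (d : ℕ) (t : ℝ) (x : Fin d → ℤ) : ℝ :=
  (if x = P d 0 0 then t / 2 else 0) + (if x = P d 1 0 then t / 2 else 0) +
  (if x = P d 0 1 then 1 / 4 else 0) + (if x = P d 1 1 then 1 / 4 else 0) +
  (if x = P d 0 2 then (1 / 2 - t) / 2 else 0) + (if x = P d 1 2 then (1 / 2 - t) / 2 else 0)

theorem fam_eq (t : ℝ) (x : Fin d → ℤ) : fam d t x = ∑ i : Fin 6, if x =
    (![P d 0 0, P d 1 0, P d 0 1, P d 1 1, P d 0 2, P d 1 2] : Fin 6 → (Fin d → ℤ)) i then
    (![t / 2, t / 2, 1 / 4, 1 / 4, (1 / 2 - t) / 2, (1 / 2 - t) / 2] : Fin 6 → ℝ) i else 0 := by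
  simp [Fin.sum_univ_succ, fam]
  ring

theorem energy_fam (hd : 2 ≤ d) (γ : ℝ) (t : ℝ) :
    energy d (γ / (2 * d)) γ (fam d t) = γ / (8 * d) := by
  rw [energy_delta (γ / (2 * d)) γ (Finset.univ : Finset (Fin 6))
    (![t / 2, t / 2, 1 / 4, 1 / 4, (1 / 2 - t) / 2, (1 / 2 - t) / 2] : Fin 6 → ℝ)
    (![P d 0 0, P d 1 0, P d 0 1, P d 1 1, P d 0 2, P d 1 2] : Fin 6 → (Fin d → ℤ)) _
    (fun x => fam_eq t x)]
  have hd' : (0 : ℝ) < d := by exact_mod_cast (by omega : 0 < d)
  simp [Fin.sum_univ_succ, F, P_inj hd, nbr_P hd]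
  field_simp
  ring

theorem fam_nonneg (t : ℝ) (h0 : 0 ≤ t) (h1 : t ≤ 1 / 4) (x : Fin d → ℤ) : 0 ≤ fam d t x := by
  unfold fam
  have : 0 ≤ (1 / 2 - t) / 2 := by linarith
  have h2 : 0 ≤ t / 2 := by linarith
  split_ifs <;> linarith

theorem fam_sum (t : ℝ) : HasSum (fam d t) 1 := by
  have h := tsum_delta (Finset.univ : Finset (Fin 6))
    (![t / 2, t / 2, 1 / 4, 1 / 4, (1 / 2 - t) / 2, (1 / 2 - t) / 2] : Fin 6 → ℝ)
    (![P d 0 0, P d 1 0, P d 0 1, P d 1 1, P d 0 2, P d 1 2] : Fin 6 → (Fin d → ℤ)) (fam d t)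
    (fun x => fam_eq t x) (fun _ => 1)
  simp only [one_mul, mul_one] at h
  convert h using 1
  simp [Fin.sum_univ_succ]
  ring

/-- the stage of the path at time `i` -/
def stage (a b i : ℕ) : ℕ := if i < 2 * a then 0 else if i < 2 * a + 2 * b then 1 else 2

/-- the explicit path: it oscillates on three parallel edges one after the other -/
def path (d a b : ℕ) (i : ℕ) : Fin d → ℤ :=
  P d (((i + stage a b i) % 2 : ℕ) : ℤ) ((stage a b i : ℕ) : ℤ)

theorem path_isPath (hd : 2 ≤ d) (a b n : ℕ) (hb : 0 < b) : IsPath n (path d a b) := by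
  intro i _
  unfold path
  rw [nbr_P hd]
  have h1 : stage a b (i + 1) = stage a b i ∨ stage a b (i + 1) = stage a b i + 1 := by
    unfold stage; split_ifs <;> omega
  rcases h1 with h1 | h1
  · rw [h1]
    have : (i + 1 + stage a b i) % 2 = 1 - (i + stage a b i) % 2 ∧ (i + stage a b i) % 2 ≤ 1 := by
      omega
    obtain ⟨h2, h3⟩ := this
    rw [h2]
    rcases (by omega : (i + stage a b i) % 2 = 0 ∨ (i + stage a b i) % 2 = 1) with h | h <;>
      simp [h]
  · rw [h1]
    have : (i + 1 + (stage a b i + 1)) % 2 = (i + stage a b i) % 2 := by omega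
    rw [this]
    push_cast
    ring

theorem sum_stage0 (a : ℕ) (x : Fin d → ℤ) (s : ℤ) :
    ∑ i ∈ Finset.range (2 * a), (if P d ((i % 2 : ℕ) : ℤ) s = x then (1 : ℝ) else 0) =
      a * ((if x = P d 0 s then 1 else 0) + (if x = P d 1 s then 1 else 0)) := by
  induction a with
  | zero => simp
  | succ a ih =>
    rw [show 2 * (a + 1) = 2 * a + 1 + 1 by ring, Finset.sum_range_succ, Finset.sum_range_succ, ih]
    have h1 : 2 * a % 2 = 0 := by omega
    have h2 : (2 * a + 1) % 2 = 1 := by omega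
    rw [h1, h2]
    have e1 : (if P d ((0 : ℕ) : ℤ) s = x then (1 : ℝ) else 0) = if x = P d 0 s then 1 else 0 := by
      simp only [eq_comm]; rfl
    have e2 : (if P d ((1 : ℕ) : ℤ) s = x then (1 : ℝ) else 0) = if x = P d 1 s then 1 else 0 := by
      simp only [eq_comm]; rfl
    rw [e1, e2]
    push_cast; ring

theorem sum_stage1 (a : ℕ) (x : Fin d → ℤ) (s : ℤ) :
    ∑ i ∈ Finset.range (2 * a), (if P d (((i + 1) % 2 : ℕ) : ℤ) s = x then (1 : ℝ) else 0) =
      a * ((if x = P d 0 s then 1 else 0) + (if x = P d 1 s then 1 else 0)) := by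
  induction a with
  | zero => simp
  | succ a ih =>
    rw [show 2 * (a + 1) = 2 * a + 1 + 1 by ring, Finset.sum_range_succ, Finset.sum_range_succ, ih]
    have h1 : (2 * a + 1) % 2 = 1 := by omega
    have h2 : (2 * a + 1 + 1) % 2 = 0 := by omega
    rw [h1, h2]
    have e1 : (if P d ((0 : ℕ) : ℤ) s = x then (1 : ℝ) else 0) = if x = P d 0 s then 1 else 0 := by
      simp only [eq_comm]; rfl
    have e2 : (if P d ((1 : ℕ) : ℤ) s = x then (1 : ℝ) else 0) = if x = P d 1 s then 1 else 0 := by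
      simp only [eq_comm]; rfl
    rw [e1, e2]
    push_cast; ring

theorem count_path (a b c : ℕ) (x : Fin d → ℤ) :
    (((Finset.range (2 * a + 2 * b + 2 * c)).filter fun i => path d a b i = x).card : ℝ) =
      a * ((if x = P d 0 0 then 1 else 0) + (if x = P d 1 0 then 1 else 0)) +
      b * ((if x = P d 0 1 then 1 else 0) + (if x = P d 1 1 then 1 else 0)) +
      c * ((if x = P d 0 2 then 1 else 0) + (if x = P d 1 2 then 1 else 0)) := by
  rw [← Finset.sum_boole, Finset.sum_range_add, Finset.sum_range_add, ← sum_stage0 a x 0,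
    ← sum_stage1 b x 1, ← sum_stage0 c x 2]
  congr 1
  · congr 1
    · refine Finset.sum_congr rfl fun i hi => ?_
      have : i < 2 * a := Finset.mem_range.1 hi
      have h1 : stage a b i = 0 := by unfold stage; simp [this]
      unfold path; rw [h1]; rfl
    · refine Finset.sum_congr rfl fun i hi => ?_
      have : i < 2 * b := Finset.mem_range.1 hi
      have h1 : stage a b (2 * a + i) = 1 := by
        unfold stage; rw [if_neg (by omega), if_pos (by omega)]
      unfold path; rw [h1]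
      have : (2 * a + i + 1) % 2 = (i + 1) % 2 := by omega
      rw [this]; rfl
  · refine Finset.sum_congr rfl fun i hi => ?_
    have h1 : stage a b (2 * a + 2 * b + i) = 2 := by
      unfold stage; rw [if_neg (by omega), if_neg (by omega)]
    unfold path; rw [h1]
    have : (2 * a + 2 * b + i + 2) % 2 = i % 2 := by omega
    rw [this]; rfl

theorem fam_mem (hd : 2 ≤ d) (t : ℝ) (h0 : 0 ≤ t) (h1 : t ≤ 1 / 4) : fam d t ∈ Limits d := by
  -- stage lengths
  let A : ℕ → ℕ := fun k => ⌊2 * t * k⌋₊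
  have hA : ∀ k, A k ≤ k := by
    intro k
    have : (⌊2 * t * k⌋₊ : ℝ) ≤ k := by
      refine le_trans (Nat.floor_le (by positivity)) ?_
      have : (0 : ℝ) ≤ k := Nat.cast_nonneg k
      nlinarith
    exact_mod_cast this
  refine ⟨fam_nonneg t h0 h1, fam_sum t, fun k => 4 * k + 1, fun k => path d (A k) (k + 1), ?_,
    fun k => path_isPath hd _ _ _ (Nat.succ_pos k), fun x => ?_⟩
  · exact tendsto_atTop_mono (fun k => by omega : ∀ k, k ≤ 4 * k + 1) tendsto_id
  · have hfl : ∀ k, localTime (4 * k + 1) (path d (A k) (k + 1)) x =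
        (A k : ℝ) * ((if x = P d 0 0 then 1 else 0) + (if x = P d 1 0 then 1 else 0)) +
        ((k : ℝ) + 1) * ((if x = P d 0 1 then 1 else 0) + (if x = P d 1 1 then 1 else 0)) +
        ((k : ℝ) - A k) * ((if x = P d 0 2 then 1 else 0) + (if x = P d 1 2 then 1 else 0)) -
        (if path d (A k) (k + 1) 0 = x then 1 / 2 else 0) -
        (if path d (A k) (k + 1) (4 * k + 1) = x then 1 / 2 else 0) := by
      intro k
      unfold localTime
      have e : 4 * k + 1 + 1 = 2 * A k + 2 * (k + 1) + 2 * (k - A k) := by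
        have := hA k; omega
      rw [e, count_path, Nat.cast_sub (hA k)]
      push_cast
      rfl
    have hk : Tendsto (fun k : ℕ => 1 / (((4 * k + 1 : ℕ) : ℕ) : ℝ)) atTop (𝓝 0) := by
      have h2 : Tendsto (fun k : ℕ => 4 * k + 1) atTop atTop :=
        tendsto_atTop_mono (fun k => by omega : ∀ k, k ≤ 4 * k + 1) tendsto_id
      exact (tendsto_one_div_atTop_nhds_zero_nat (𝕜 := ℝ)).comp h2
    have hk1 : Tendsto (fun k : ℕ => 1 / (((4 * k + 1 : ℕ) : ℕ) : ℝ) * k) atTop (𝓝 (1 / 4)) := by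
      have h3 : ∀ k : ℕ, 1 / (((4 * k + 1 : ℕ) : ℕ) : ℝ) * k =
          1 / 4 - 1 / 4 * (1 / (((4 * k + 1 : ℕ) : ℕ) : ℝ)) := by
        intro k
        have : (4 * (k : ℝ) + 1) ≠ 0 := by positivity
        push_cast; field_simp; ring
      simp only [h3]
      have h4 := (hk.const_mul (1 / 4)).const_sub (1 / 4)
      rw [mul_zero, sub_zero] at h4
      exact h4
    have hkA : Tendsto (fun k : ℕ => 1 / (((4 * k + 1 : ℕ) : ℕ) : ℝ) * A k) atTop
        (𝓝 (t / 2)) := by
      have h4 : Tendsto (fun k : ℕ => ((A k : ℕ) : ℝ) / (k : ℝ)) atTop (𝓝 (2 * t)) := by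
        have := (tendsto_nat_floor_mul_div_atTop (R := ℝ) (a := 2 * t) (by positivity)).comp
          (tendsto_natCast_atTop_atTop (R := ℝ))
        exact this
      have h5 := hk1.mul h4
      have h6 : (1 / 4 : ℝ) * (2 * t) = t / 2 := by ring
      rw [h6] at h5
      refine h5.congr' ?_
      filter_upwards [eventually_gt_atTop 0] with k hk0
      have : (k : ℝ) ≠ 0 := by exact_mod_cast hk0.ne'
      field_simp
    have b1 : Tendsto (fun k : ℕ => 1 / (((4 * k + 1 : ℕ) : ℕ) : ℝ) *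
        (if path d (A k) (k + 1) 0 = x then 1 / 2 else 0)) atTop (𝓝 0) := by
      refine squeeze_zero (fun k => by positivity) (fun k => ?_) hk
      refine mul_le_of_le_one_right (by positivity) ?_
      split_ifs <;> norm_num
    have b2 : Tendsto (fun k : ℕ => 1 / (((4 * k + 1 : ℕ) : ℕ) : ℝ) *
        (if path d (A k) (k + 1) (4 * k + 1) = x then 1 / 2 else 0)) atTop (𝓝 0) := by
      refine squeeze_zero (fun k => by positivity) (fun k => ?_) hk
      refine mul_le_of_le_one_right (by positivity) ?_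
      split_ifs <;> norm_num
    have tot := ((((hkA.mul_const ((if x = P d 0 0 then (1 : ℝ) else 0) +
      (if x = P d 1 0 then 1 else 0))).add ((hk1.add hk).mul_const
      ((if x = P d 0 1 then (1 : ℝ) else 0) + (if x = P d 1 1 then 1 else 0)))).add
      ((hk1.sub hkA).mul_const ((if x = P d 0 2 then (1 : ℝ) else 0) +
      (if x = P d 1 2 then 1 else 0)))).sub b1).sub b2
    have hfin : t / 2 * ((if x = P d 0 0 then (1 : ℝ) else 0) + (if x = P d 1 0 then 1 else 0)) +
        (1 / 4 + 0) * ((if x = P d 0 1 then (1 : ℝ) else 0) + (if x = P d 1 1 then 1 else 0)) +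
        (1 / 4 - t / 2) * ((if x = P d 0 2 then (1 : ℝ) else 0) + (if x = P d 1 2 then 1 else 0)) -
        0 - 0 = fam d t x := by
      unfold fam
      split_ifs <;> ring
    rw [hfin] at tot
    refine tot.congr fun k => ?_
    rw [hfl]
    ring

theorem isometry_surj (φ : (Fin d → ℤ) → (Fin d → ℤ)) (h : IsLatticeIsometry φ) :
    Function.Surjective φ := by
  obtain ⟨π, s, z, hs, hφ⟩ := h
  intro y
  refine ⟨fun j => s (π.symm j) * (y (π.symm j) - z (π.symm j)), ?_⟩
  funext i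
  rw [hφ]
  simp only [Equiv.symm_apply_apply]
  rcases hs i with h | h <;> rw [h] <;> ring

theorem fam_value (hd : 2 ≤ d) (t : ℝ) : fam d t (P d 0 2) = 1 / 4 - t / 2 := by
  unfold fam
  simp [P_inj hd]
  ring

theorem fam_range (hd : 2 ≤ d) (t : ℝ) (x : Fin d → ℤ) (h : 1 / 8 ≤ fam d t x)
    (h1 : t ≤ 1 / 4) : fam d t x = 1 / 4 ∨ fam d t x = 1 / 4 - t / 2 := by
  by_cases c1 : x = P d 0 0
  · subst c1
    have e : fam d t (P d 0 0) = t / 2 := by unfold fam; simp [P_inj hd]
    rw [e] at h ⊢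
    right; linarith
  by_cases c2 : x = P d 1 0
  · subst c2
    have e : fam d t (P d 1 0) = t / 2 := by unfold fam; simp [P_inj hd]
    rw [e] at h ⊢
    right; linarith
  by_cases c3 : x = P d 0 1
  · subst c3
    left; unfold fam; simp [P_inj hd]
  by_cases c4 : x = P d 1 1
  · subst c4
    left; unfold fam; simp [P_inj hd]
  by_cases c5 : x = P d 0 2
  · subst c5
    right; exact fam_value hd t
  by_cases c6 : x = P d 1 2
  · subst c6
    right; unfold fam; simp [P_inj hd]; ring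
  · have e : fam d t x = 0 := by unfold fam; simp [c1, c2, c3, c4, c5, c6]
    rw [e] at h; norm_num at h

theorem inequivalent (hd : 2 ≤ d) (s t : ℝ) (hs0 : 0 ≤ s) (hs1 : s ≤ 1 / 4) (ht0 : 0 ≤ t)
    (ht1 : t ≤ 1 / 4) (hst : s ≠ t) : ¬ Equivalent (fam d s) (fam d t) := by
  rintro ⟨φ, hφ, h⟩
  have hsurj := isometry_surj φ hφ
  have h1 : fam d s (φ (P d 0 2)) = 1 / 4 - t / 2 := by
    rw [← fam_value hd t, h]; rfl
  have h2 := fam_range hd s (φ (P d 0 2)) (by rw [h1]; linarith) hs1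
  rw [h1] at h2
  rcases h2 with h2 | h2
  · obtain ⟨y, hy⟩ := hsurj (P d 0 2)
    have h3 : fam d t y = 1 / 4 - s / 2 := by
      rw [← fam_value hd s, h, Function.comp_apply, hy]
    have h4 := fam_range hd t y (by rw [h3]; linarith) ht1
    rw [h3] at h4
    apply hst
    rcases h4 with h4 | h4 <;> linarith
  · apply hst; linarith

end Family

/-- **Theorem.** For every `d ≥ 2` and `γ > 0`, at `β = γ / (2 d)` (so `0 < β < γ`) the maximum of
`⟨f, F f⟩` over the limits of local times is `γ / (8 d)`, and it is attained by the functions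
`fam d t`, `0 ≤ t ≤ 1/4`, no two of which are equivalent under lattice isometries. -/
theorem result : ∀ d : ℕ, 2 ≤ d → ∀ γ : ℝ, 0 < γ →
    0 < γ / (2 * d) ∧ γ / (2 * d) < γ ∧
    ∃ f : ℝ → ((Fin d → ℤ) → ℝ),
      (∀ t ∈ Set.Icc (0 : ℝ) (1 / 4), IsMaximiser d (γ / (2 * d)) γ (f t) ∧
        energy d (γ / (2 * d)) γ (f t) = γ / (8 * d)) ∧
      ∀ s ∈ Set.Icc (0 : ℝ) (1 / 4), ∀ t ∈ Set.Icc (0 : ℝ) (1 / 4), s ≠ t →
        ¬ Equivalent (f s) (f t) := by
  intro d hd γ hγ
  have hd' : (2 : ℝ) ≤ d := by exact_mod_cast hd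
  refine ⟨by positivity, ?_, fam d, fun t ht => ⟨⟨fam_mem hd t ht.1 ht.2, fun g hg => ?_⟩,
    energy_fam hd γ t⟩, fun s hs t ht hst => inequivalent hd s t hs.1 hs.2 ht.1 ht.2 hst⟩
  · rw [div_lt_iff₀ (by linarith)]; nlinarith
  · rw [energy_fam hd]
    exact energy_le (by omega) γ hγ g hg

end Pool.Agent.Results.MP_840660_pr.InequivalentMaximisers
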